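import Pool.Agent.Helper26.AL.GoalsA

/-!
Project AL, packet CLO: closed sets whose components are complex of excess at most `R`.
-/

set_option linter.unusedSectionVars false

namespace Pool.Agent.Helper45.AL

open Finset Pool.Agent.Helper26.AF Pool.Agent.Helper26.AL

section gen

variable {V : Type}

theorem isComp_iff (G : SimpleGraph V) (Q : Finset V) :
    IsComp G Q ↔ ∃ x ∈ Q, ∀ y, y ∈ Q ↔ G.Reachable x y := by
  constructor
  · rintro ⟨c, hc⟩
    induction c using SimpleGraph.ConnectedComponent.ind with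
    | _ x =>
      have h : ∀ y, y ∈ Q ↔ G.Reachable x y := by
        intro y
        rw [← Finset.mem_coe, ← hc, SimpleGraph.ConnectedComponent.mem_supp_iff,
          SimpleGraph.ConnectedComponent.eq]
        exact ⟨fun h => h.symm, fun h => h.symm⟩
      exact ⟨x, (h x).mpr (SimpleGraph.Reachable.refl x), h⟩
  · rintro ⟨x, hx, h⟩
    refine ⟨G.connectedComponentMk x, ?_⟩
    ext y
    rw [Finset.mem_coe, h, SimpleGraph.ConnectedComponent.mem_supp_iff,
      SimpleGraph.ConnectedComponent.eq]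
    exact ⟨fun h => h.symm, fun h => h.symm⟩

theorem comp_reach {G : SimpleGraph V} {Q : Finset V} (h : IsComp G Q) {x : V} (hx : x ∈ Q) (y : V) :
    y ∈ Q ↔ G.Reachable x y := by
  obtain ⟨z, _, hz⟩ := (isComp_iff G Q).mp h
  have h1 := (hz x).mp hx
  rw [hz]
  exact ⟨fun h2 => h1.symm.trans h2, fun h2 => h1.trans h2⟩

theorem comp_eq {G : SimpleGraph V} {Q Q' : Finset V} (h : IsComp G Q) (h' : IsComp G Q') {x : V}
    (hx : x ∈ Q) (hx' : x ∈ Q') : Q = Q' := by
  ext y
  rw [comp_reach h hx, comp_reach h' hx']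

theorem comp_clo {G : SimpleGraph V} {Q : Finset V} (h : IsComp G Q) : Clo G Q := by
  intro x y hxy hx
  exact (comp_reach h hx y).mpr hxy.reachable

theorem comp_ne {G : SimpleGraph V} {Q : Finset V} (h : IsComp G Q) : Q.Nonempty := by
  obtain ⟨z, hz, _⟩ := (isComp_iff G Q).mp h
  exact ⟨z, hz⟩

/-- a closed set contains everything reachable -/
theorem clo_reach {G : SimpleGraph V} {U : Finset V} (hU : Clo G U) {x y : V} (h : G.Reachable x y)
    (hx : x ∈ U) : y ∈ U := by
  obtain ⟨p⟩ := h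
  induction p with
  | nil => exact hx
  | cons hadj p ih => exact ih (hU _ _ hadj hx)

theorem exists_comp [Fintype V] (G : SimpleGraph V) (x : V) : ∃ Q, IsComp G Q ∧ x ∈ Q := by
  classical
  refine ⟨univ.filter (fun y => G.Reachable x y), ?_, ?_⟩
  · rw [isComp_iff]
    exact ⟨x, by simp, fun y => by simp⟩
  · simp

theorem comp_sub {G : SimpleGraph V} {U Q : Finset V} (hU : Clo G U) (h : IsComp G Q) {x : V}
    (hx : x ∈ Q) (hxU : x ∈ U) : Q ⊆ U := by
  intro y hy
  exact clo_reach hU ((comp_reach h hx y).mp hy) hxU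

/-- the edges in an embedded set -/
theorem eIn_comap {W : Type} (f : W ↪ V) (G : SimpleGraph V) (Q : Finset W) :
    eIn (G.comap f) Q = eIn G (Q.map f) := by
  unfold eIn
  refine Nat.card_congr (Equiv.ofBijective (fun e => ⟨Sym2.map f e.1, ?_, ?_⟩) ⟨?_, ?_⟩)
  · obtain ⟨e, he, _⟩ := e
    induction e using Sym2.ind with
    | _ a b => simpa using he
  · obtain ⟨e, he, h2⟩ := e
    intro v hv
    obtain ⟨w, hw, rfl⟩ := Sym2.mem_map.mp hv
    exact mem_map_of_mem f (h2 w hw)
  · intro e e' h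
    have := congrArg Subtype.val h
    exact Subtype.ext (Sym2.map.injective f.injective this)
  · rintro ⟨e, he, h2⟩
    induction e using Sym2.ind with
    | _ a b =>
      obtain ⟨a', ha', rfl⟩ := mem_map.mp (h2 a (by simp))
      obtain ⟨b', hb', rfl⟩ := mem_map.mp (h2 b (by simp))
      refine ⟨⟨s(a', b'), by simpa using he, ?_⟩, by simp⟩
      intro v hv
      rcases Sym2.mem_iff.mp hv with rfl | rfl
      · exact ha'
      · exact hb'

theorem ne_eq_eIn [Fintype V] (G : SimpleGraph V) : ne G = eIn G univ := by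
  unfold ne eIn
  refine Nat.card_congr (Equiv.subtypeEquivRight fun e => ?_)
  simp

/-- edges in a union of components -/
theorem eIn_sup [Fintype V] [DecidableEq V] (G : SimpleGraph V) (A : Finset (Finset V))
    (hA : ∀ Q ∈ A, IsComp G Q) : eIn G (A.sup id) = ∑ Q ∈ A, eIn G Q := by
  classical
  have h1 : ∀ Q : Finset V, eIn G Q = #(univ.filter fun e : Sym2 V => e ∈ G.edgeSet ∧ ∀ v ∈ e, v ∈ Q) := by
    intro Q
    unfold eIn
    rw [Nat.card_eq_fintype_card, Fintype.card_subtype]
  rw [h1]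
  simp only [h1]
  rw [← card_biUnion]
  · congr 1
    ext e
    simp only [mem_filter, mem_univ, true_and, mem_biUnion]
    induction e using Sym2.ind with
    | _ a b =>
      constructor
      · rintro ⟨h2, h3⟩
        have ha := h3 a (by simp)
        rw [mem_sup] at ha
        obtain ⟨Q, hQ, haQ⟩ := ha
        refine ⟨Q, hQ, h2, ?_⟩
        intro v hv
        rcases Sym2.mem_iff.mp hv with rfl | rfl
        · exact haQ
        · exact comp_clo (hA Q hQ) _ _ h2 haQ
      · rintro ⟨Q, hQ, h2, h3⟩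
        refine ⟨h2, fun v hv => ?_⟩
        rw [mem_sup]
        exact ⟨Q, hQ, h3 v hv⟩
  · intro Q hQ Q' hQ' hne
    rw [Function.onFun, disjoint_left]
    intro e he he'
    rw [mem_filter] at he he'
    induction e using Sym2.ind with
    | _ a b =>
      exact hne (comp_eq (hA Q hQ) (hA Q' hQ') (he.2.2 a (by simp)) (he'.2.2 a (by simp)))

end gen

section fin

variable {n : ℕ} (G : SimpleGraph (Fin n)) (U : Finset (Fin n))

theorem gi_eq : gi G U = G.comap (U.orderEmbOfFin rfl).toEmbedding := rfl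

theorem emb_mem (i : Fin #U) : (U.orderEmbOfFin rfl).toEmbedding i ∈ U := U.orderEmbOfFin_mem rfl i

theorem emb_surj {x : Fin n} (hx : x ∈ U) : ∃ i, (U.orderEmbOfFin rfl).toEmbedding i = x := by
  have h := U.range_orderEmbOfFin rfl
  have : x ∈ Set.range (U.orderEmbOfFin rfl) := by rw [h]; exact hx
  exact this

theorem reach_gi (hU : Clo G U) (i j : Fin #U) : (gi G U).Reachable i j ↔
    G.Reachable ((U.orderEmbOfFin rfl).toEmbedding i) ((U.orderEmbOfFin rfl).toEmbedding j) := by
  constructor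
  · intro h
    exact h.map (⟨(U.orderEmbOfFin rfl).toEmbedding, fun h => h⟩ : gi G U →g G)
  · rintro ⟨p⟩
    have key : ∀ (a b : Fin n) (p : G.Walk a b) (i : Fin #U), (U.orderEmbOfFin rfl).toEmbedding i = a →
        ∃ j, (U.orderEmbOfFin rfl).toEmbedding j = b ∧ (gi G U).Reachable i j := by
      intro a b p
      induction p with
      | nil => exact fun i hi => ⟨i, hi, SimpleGraph.Reachable.refl i⟩
      | @cons a c b hadj p ih =>
        intro i hi
        have hc : c ∈ U := hU a c hadj (by rw [← hi]; exact emb_mem U i)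
        obtain ⟨k, hk⟩ := emb_surj U hc
        obtain ⟨j, hj, hr⟩ := ih k hk
        refine ⟨j, hj, SimpleGraph.Reachable.trans ?_ hr⟩
        refine SimpleGraph.Adj.reachable ?_
        show G.Adj _ _
        rw [← hi, ← hk] at hadj
        exact hadj
    obtain ⟨j', hj', hr⟩ := key _ _ p i rfl
    have := (U.orderEmbOfFin rfl).toEmbedding.injective hj'
    rw [← this]; exact hr

theorem comp_gi (hU : Clo G U) (Q : Finset (Fin #U)) :
    IsComp (gi G U) Q ↔ IsComp G (Q.map (U.orderEmbOfFin rfl).toEmbedding) := by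
  rw [isComp_iff, isComp_iff]
  constructor
  · rintro ⟨x, hx, h⟩
    refine ⟨_, mem_map_of_mem _ hx, fun y => ?_⟩
    constructor
    · intro hy
      obtain ⟨y', hy', rfl⟩ := mem_map.mp hy
      exact (reach_gi G U hU _ _).mp ((h y').mp hy')
    · intro hy
      obtain ⟨y', rfl⟩ := emb_surj U (clo_reach hU hy (emb_mem U x))
      exact mem_map_of_mem _ ((h y').mpr ((reach_gi G U hU _ _).mpr hy))
  · rintro ⟨x, hx, h⟩
    obtain ⟨x', hx', rfl⟩ := mem_map.mp hx
    refine ⟨x', hx', fun y => ?_⟩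
    rw [reach_gi G U hU, ← h, mem_map']

theorem comp_of_sub (Q : Finset (Fin n)) (hQ : Q ⊆ U) :
    ∃ Q' : Finset (Fin #U), Q'.map (U.orderEmbOfFin rfl).toEmbedding = Q := by
  classical
  refine ⟨univ.filter fun i => (U.orderEmbOfFin rfl).toEmbedding i ∈ Q, ?_⟩
  ext y
  rw [mem_map]
  constructor
  · rintro ⟨i, hi, rfl⟩
    exact (mem_filter.mp hi).2
  · intro hy
    obtain ⟨i, rfl⟩ := emb_surj U (hQ hy)
    exact ⟨i, mem_filter.mpr ⟨mem_univ _, hy⟩, rfl⟩

theorem eIn_gi (Q : Finset (Fin #U)) :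
    eIn (gi G U) Q = eIn G (Q.map (U.orderEmbOfFin rfl).toEmbedding) :=
  eIn_comap _ G Q

theorem ne_gi : ne (gi G U) = eIn G U := by
  rw [ne_eq_eIn, eIn_gi]
  congr 1
  ext y
  rw [mem_map]
  constructor
  · rintro ⟨i, _, rfl⟩
    exact emb_mem U i
  · intro hy
    obtain ⟨i, rfl⟩ := emb_surj U hy
    exact ⟨i, mem_univ _, rfl⟩

variable {G}

theorem cxs_comp {R : ℕ} {Q : Finset (Fin n)} (h : Q ∈ cxs R G) : IsComp G Q := by
  classical
  unfold cxs at h
  exact (mem_filter.mp h).2.1

theorem clo_sup (A : Finset (Finset (Fin n))) (hA : ∀ Q ∈ A, IsComp G Q) : Clo G (A.sup id) := by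
  intro x y hxy hx
  rw [mem_sup] at hx ⊢
  obtain ⟨Q, hQ, hxQ⟩ := hx
  exact ⟨Q, hQ, comp_clo (hA Q hQ) x y hxy hxQ⟩

/-- the components of `G` in a union of components are its members -/
theorem comp_mem (A : Finset (Finset (Fin n))) (hA : ∀ Q ∈ A, IsComp G Q) {Q : Finset (Fin n)}
    (hQ : IsComp G Q) {x : Fin n} (hx : x ∈ Q) (hxA : x ∈ A.sup id) : Q ∈ A := by
  rw [mem_sup] at hxA
  obtain ⟨Q', hQ', hxQ'⟩ := hxA
  rw [comp_eq hQ (hA Q' hQ') hx hxQ']
  exact hQ'

theorem cc_sup (A : Finset (Finset (Fin n))) (hA : ∀ Q ∈ A, IsComp G Q) :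
    cc (gi G (A.sup id)) = #A := by
  classical
  set U := A.sup id with hU
  have hcl : Clo G U := clo_sup A hA
  have hc : #A = Nat.card A := by simp
  rw [hc]
  unfold cc
  have hcomp : ∀ c : (gi G U).ConnectedComponent, IsComp (gi G U) c.supp.toFinset := fun c =>
    ⟨c, by simp⟩
  refine Nat.card_congr (Equiv.ofBijective (fun c =>
    (⟨c.supp.toFinset.map (U.orderEmbOfFin rfl).toEmbedding, ?_⟩ : A)) ⟨?_, ?_⟩)
  · have h1 := (comp_gi G U hcl _).mp (hcomp c)
    obtain ⟨x, hx⟩ := comp_ne h1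
    refine comp_mem A hA h1 hx ?_
    obtain ⟨i, _, rfl⟩ := mem_map.mp hx
    exact emb_mem U i
  · intro c c' h
    have h1 := congrArg Subtype.val h
    simp only [] at h1
    have h2 := Finset.map_injective _ h1
    have h3 : c.supp = c'.supp := by
      have := congrArg (fun s : Finset (Fin #U) => (s : Set (Fin #U))) h2
      simpa using this
    exact SimpleGraph.ConnectedComponent.supp_injective h3
  · rintro ⟨Q, hQ⟩
    have hQU : Q ⊆ U := Finset.le_sup (f := id) hQ
    obtain ⟨Q', hQ'⟩ := comp_of_sub U Q hQU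
    have h1 : IsComp (gi G U) Q' := by
      rw [comp_gi G U hcl, hQ']; exact hA Q hQ
    obtain ⟨c, hcs⟩ := h1
    refine ⟨c, Subtype.ext ?_⟩
    show c.supp.toFinset.map (U.orderEmbOfFin rfl).toEmbedding = Q
    rw [← hQ']
    congr 1
    apply Finset.coe_injective
    simpa using hcs

end fin

theorem goalCLO : Pool.Agent.Helper26.AL.StmtCLO := by
  classical
  intro n R G
  have hcomp : ∀ A ⊆ cxs R G, ∀ Q ∈ A, IsComp G Q := fun A hA Q hQ => cxs_comp (hA hQ)
  refine ⟨?_, ?_, ?_⟩
  · intro A hA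
    refine ⟨clo_sup A (hcomp A hA), cc_sup A (hcomp A hA), ?_, ?_⟩
    · rw [ne_gi, eIn_sup G A (hcomp A hA)]
    · rw [sup_eq_biUnion, card_biUnion]
      · rfl
      · intro Q hQ Q' hQ' hne
        rw [Function.onFun, disjoint_left]
        intro x hx hx'
        exact hne (comp_eq (hcomp A hA Q hQ) (hcomp A hA Q' hQ') hx hx')
  · intro A hA B hB
    constructor
    · intro h
      rw [disjoint_left]
      intro Q hQ hQ'
      obtain ⟨x, hx⟩ := comp_ne (hcomp A hA Q hQ)
      exact (disjoint_left.mp h) (mem_sup.mpr ⟨Q, hQ, hx⟩) (mem_sup.mpr ⟨Q, hQ', hx⟩)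
    · intro h
      rw [disjoint_left]
      intro x hx hx'
      rw [mem_sup] at hx
      obtain ⟨Q, hQ, hxQ⟩ := hx
      exact (disjoint_left.mp h) hQ (comp_mem B (hcomp B hB) (hcomp A hA Q hQ) hxQ hx')
  · intro Φ
    rw [← sum_filter]
    symm
    refine sum_bij (fun A _ => A.sup id) ?_ ?_ ?_ ?_
    · intro A hA
      rw [mem_powerset] at hA
      rw [mem_filter]
      have hcl := clo_sup A (hcomp A hA)
      refine ⟨mem_univ _, hcl, ?_⟩
      intro Q' hQ'
      have h1 := (comp_gi G (A.sup id) hcl _).mp hQ'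
      obtain ⟨x, hx⟩ := comp_ne h1
      have h2 : Q'.map ((A.sup id).orderEmbOfFin rfl).toEmbedding ∈ A := by
        refine comp_mem A (hcomp A hA) h1 hx ?_
        obtain ⟨i, _, rfl⟩ := mem_map.mp hx
        exact emb_mem _ i
      have h3 := hA h2
      unfold cxs at h3
      have h4 := (mem_filter.mp h3).2.2
      rw [eIn_gi]
      rw [card_map] at h4
      exact h4
    · intro A hA B hB h
      rw [mem_powerset] at hA hB
      have key : ∀ A ⊆ cxs R G, ∀ B ⊆ cxs R G, A.sup id = B.sup id → A ⊆ B := by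
        intro A hA B hB h Q hQ
        obtain ⟨x, hx⟩ := comp_ne (hcomp A hA Q hQ)
        refine comp_mem B (hcomp B hB) (hcomp A hA Q hQ) hx ?_
        rw [← h]
        exact mem_sup.mpr ⟨Q, hQ, hx⟩
      exact Subset.antisymm (key A hA B hB h) (key B hB A hA h.symm)
    · intro U hU
      rw [mem_filter] at hU
      obtain ⟨-, hcl, hcx⟩ := hU
      refine ⟨(cxs R G).filter (fun Q => Q ⊆ U), mem_powerset.mpr (filter_subset _ _), ?_⟩
      apply Subset.antisymm
      · intro x hx
        rw [mem_sup] at hx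
        obtain ⟨Q, hQ, hxQ⟩ := hx
        exact (mem_filter.mp hQ).2 hxQ
      · intro x hx
        obtain ⟨Q, hQ, hxQ⟩ := exists_comp G x
        have hQU := comp_sub hcl hQ hxQ hx
        obtain ⟨Q', hQ'⟩ := comp_of_sub U Q hQU
        have h1 : IsComp (gi G U) Q' := by
          rw [comp_gi G U hcl, hQ']; exact hQ
        have h2 := hcx Q' h1
        rw [eIn_gi, hQ', ← card_map ((U.orderEmbOfFin rfl).toEmbedding), hQ'] at h2
        rw [mem_sup]
        refine ⟨Q, mem_filter.mpr ⟨?_, hQU⟩, hxQ⟩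
        unfold cxs
        exact mem_filter.mpr ⟨mem_univ _, hQ, h2⟩
    · intro A _
      rfl

end Pool.Agent.Helper45.AL
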