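import Pool.Agent.Helper26.AL.GoalsA
import Pool.Agent.Helper5.AF.GCO
import Pool.Agent.Helper45.AL.CLO

/-!
Project AL, packet GLU: the genus of a disjoint union.
-/

set_option linter.unusedSectionVars false

namespace Pool.Agent.Helper45.AL

open Finset Pool.Agent.Helper26.AF Pool.Agent.Helper26.AL Pool.Agent.Helper5.AF

section orbs

variable {A B : Type}

theorem sumCongr_zpow (α : Equiv.Perm A) (β : Equiv.Perm B) (i : ℤ) :
    (Equiv.Perm.sumCongr α β) ^ i = Equiv.sumCongr (α ^ i) (β ^ i) := by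
  have := map_zpow (Equiv.Perm.sumCongrHom A B) (α, β) i
  exact this.symm

theorem sameCycle_inl (α : Equiv.Perm A) (β : Equiv.Perm B) (a b : A) :
    (Equiv.Perm.sumCongr α β).SameCycle (Sum.inl a) (Sum.inl b) ↔ α.SameCycle a b := by
  constructor
  · rintro ⟨i, hi⟩
    rw [sumCongr_zpow] at hi
    exact ⟨i, Sum.inl_injective hi⟩
  · rintro ⟨i, hi⟩
    refine ⟨i, ?_⟩
    rw [sumCongr_zpow]
    exact congrArg Sum.inl hi

theorem sameCycle_inr (α : Equiv.Perm A) (β : Equiv.Perm B) (a b : B) :
    (Equiv.Perm.sumCongr α β).SameCycle (Sum.inr a) (Sum.inr b) ↔ β.SameCycle a b := by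
  constructor
  · rintro ⟨i, hi⟩
    rw [sumCongr_zpow] at hi
    exact ⟨i, Sum.inr_injective hi⟩
  · rintro ⟨i, hi⟩
    refine ⟨i, ?_⟩
    rw [sumCongr_zpow]
    exact congrArg Sum.inr hi

theorem not_sameCycle (α : Equiv.Perm A) (β : Equiv.Perm B) (a : A) (b : B) :
    ¬ (Equiv.Perm.sumCongr α β).SameCycle (Sum.inl a) (Sum.inr b) := by
  rintro ⟨i, hi⟩
  rw [sumCongr_zpow] at hi
  exact Sum.inl_ne_inr hi

theorem orb_sum [Finite A] [Finite B] (α : Equiv.Perm A) (β : Equiv.Perm B) :
    orb (Equiv.Perm.sumCongr α β) = orb α + orb β := by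
  unfold orb
  rw [← Nat.card_sum]
  symm
  let f : Quotient (Equiv.Perm.SameCycle.setoid α) ⊕ Quotient (Equiv.Perm.SameCycle.setoid β) →
      Quotient (Equiv.Perm.SameCycle.setoid (Equiv.Perm.sumCongr α β)) :=
    Sum.elim (Quotient.map Sum.inl fun a b h => (sameCycle_inl α β a b).mpr h)
      (Quotient.map Sum.inr fun a b h => (sameCycle_inr α β a b).mpr h)
  refine Nat.card_congr (Equiv.ofBijective f ⟨?_, ?_⟩)
  · rintro (x | x) (y | y) h
    · induction x using Quotient.ind with
      | _ x =>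
      induction y using Quotient.ind with
      | _ y =>
        have h1 : (Equiv.Perm.sumCongr α β).SameCycle (Sum.inl x) (Sum.inl y) :=
          Quotient.exact h
        exact congrArg Sum.inl (Quotient.sound ((sameCycle_inl α β x y).mp h1))
    · induction x using Quotient.ind with
      | _ x =>
      induction y using Quotient.ind with
      | _ y =>
        have h1 : (Equiv.Perm.sumCongr α β).SameCycle (Sum.inl x) (Sum.inr y) :=
          Quotient.exact h
        exact absurd h1 (not_sameCycle α β x y)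
    · induction x using Quotient.ind with
      | _ x =>
      induction y using Quotient.ind with
      | _ y =>
        have h1 : (Equiv.Perm.sumCongr α β).SameCycle (Sum.inr x) (Sum.inl y) :=
          Quotient.exact h
        exact absurd h1.symm (not_sameCycle α β y x)
    · induction x using Quotient.ind with
      | _ x =>
      induction y using Quotient.ind with
      | _ y =>
        have h1 : (Equiv.Perm.sumCongr α β).SameCycle (Sum.inr x) (Sum.inr y) :=
          Quotient.exact h
        exact congrArg Sum.inr (Quotient.sound ((sameCycle_inr α β x y).mp h1))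
  · intro z
    induction z using Quotient.ind with
    | _ z =>
      rcases z with a | b
      · exact ⟨Sum.inl (Quotient.mk _ a), rfl⟩
      · exact ⟨Sum.inr (Quotient.mk _ b), rfl⟩

end orbs

section glu

variable {n : ℕ} (G : SimpleGraph (Fin n)) (U : Finset (Fin n))

/-- the embedding of `Fin #U` -/
abbrev ev (U : Finset (Fin n)) : Fin #U ↪ Fin n := (U.orderEmbOfFin rfl).toEmbedding

theorem clo_compl (h : Clo G U) : Clo G Uᶜ := by
  intro x y hxy hx
  rw [mem_compl] at hx ⊢
  exact fun hy => hx (h y x hxy.symm hy)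

/-- the darts of the parts -/
def dgi (d : (gi G U).Dart) : G.Dart := ⟨(ev U d.fst, ev U d.snd), d.adj⟩

theorem dgi_inj : Function.Injective (dgi G U) := by
  intro d d' h
  have h1 : ev U d.fst = ev U d'.fst := congrArg (fun d : G.Dart => d.fst) h
  have h2 : ev U d.snd = ev U d'.snd := congrArg (fun d : G.Dart => d.snd) h
  apply SimpleGraph.Dart.ext
  exact Prod.ext ((ev U).injective h1) ((ev U).injective h2)

theorem dgi_surj (hU : Clo G U) (d : G.Dart) (hd : d.fst ∈ U) : ∃ d', dgi G U d' = d := by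
  obtain ⟨i, hi⟩ := emb_surj U hd
  obtain ⟨j, hj⟩ := emb_surj U (hU _ _ d.adj hd)
  have hadj : (gi G U).Adj i j := by
    show G.Adj _ _
    have := d.adj
    rw [← hi, ← hj] at this
    exact this
  refine ⟨⟨(i, j), hadj⟩, ?_⟩
  apply SimpleGraph.Dart.ext
  exact Prod.ext hi hj

theorem ev_ne (i : Fin #U) (j : Fin #Uᶜ) : ev U i ≠ ev Uᶜ j := by
  intro h
  have h1 := emb_mem U i
  have h2 := emb_mem Uᶜ j
  rw [mem_compl] at h2
  exact h2 (h ▸ h1)

theorem phi_bij (hU : Clo G U) : Function.Bijective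
    (Sum.elim (dgi G U) (dgi G Uᶜ) : (gi G U).Dart ⊕ (gi G Uᶜ).Dart → G.Dart) := by
  constructor
  · rintro (x | x) (y | y) h
    · exact congrArg Sum.inl (dgi_inj G U h)
    · exact absurd (congrArg (fun d : G.Dart => d.fst) h) (ev_ne U _ _)
    · exact absurd (congrArg (fun d : G.Dart => d.fst) h).symm (ev_ne U _ _)
    · exact congrArg Sum.inr (dgi_inj G Uᶜ h)
  · intro d
    by_cases hd : d.fst ∈ U
    · obtain ⟨d', h⟩ := dgi_surj G U hU d hd
      exact ⟨Sum.inl d', h⟩
    · obtain ⟨d', h⟩ := dgi_surj G Uᶜ (clo_compl G U hU) d (mem_compl.mpr hd)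
      exact ⟨Sum.inr d', h⟩

theorem psi_bij : Function.Bijective (Sum.elim (ev U) (ev Uᶜ) : Fin #U ⊕ Fin #Uᶜ → Fin n) := by
  constructor
  · rintro (x | x) (y | y) h
    · exact congrArg Sum.inl ((ev U).injective h)
    · exact absurd h (ev_ne U _ _)
    · exact absurd h.symm (ev_ne U _ _)
    · exact congrArg Sum.inr ((ev Uᶜ).injective h)
  · intro x
    by_cases hx : x ∈ U
    · obtain ⟨i, h⟩ := emb_surj U hx
      exact ⟨Sum.inl i, h⟩
    · obtain ⟨i, h⟩ := emb_surj Uᶜ (mem_compl.mpr hx)
      exact ⟨Sum.inr i, h⟩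

theorem iso_iff (hU : Clo G U) (i : Fin #U) :
    (∀ w, ¬ G.Adj (ev U i) w) ↔ ∀ j, ¬ (gi G U).Adj i j := by
  constructor
  · intro h j hj
    exact h _ hj
  · intro h w hw
    obtain ⟨j, rfl⟩ := emb_surj U (hU _ _ hw (emb_mem U i))
    exact h j hw

theorem isolated (hU : Clo G U) : Nat.card {v : Fin n // ∀ w, ¬ G.Adj v w}
    = Nat.card {v : Fin #U // ∀ w, ¬ (gi G U).Adj v w}
      + Nat.card {v : Fin #Uᶜ // ∀ w, ¬ (gi G Uᶜ).Adj v w} := by
  rw [← Nat.card_sum]
  let ψ := Equiv.ofBijective _ (psi_bij U)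
  refine Nat.card_congr ?_
  refine ((Equiv.subtypeEquiv ψ (p := fun x => ∀ w, ¬ G.Adj (ψ x) w) (fun x => Iff.rfl)).symm.trans
    Equiv.subtypeSum).trans (Equiv.sumCongr ?_ ?_)
  · exact Equiv.subtypeEquivRight fun i => iso_iff G U hU i
  · exact Equiv.subtypeEquivRight fun i => iso_iff G Uᶜ (clo_compl G U hU) i

theorem comps (hU : Clo G U) : Nat.card G.ConnectedComponent
    = Nat.card (gi G U).ConnectedComponent + Nat.card (gi G Uᶜ).ConnectedComponent := by
  rw [← Nat.card_sum]
  symm
  have hC := clo_compl G U hU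
  let h1 : gi G U →g G := ⟨ev U, fun h => h⟩
  let h2 : gi G Uᶜ →g G := ⟨ev Uᶜ, fun h => h⟩
  refine Nat.card_congr (Equiv.ofBijective
    (Sum.elim (SimpleGraph.ConnectedComponent.map h1) (SimpleGraph.ConnectedComponent.map h2)) ⟨?_, ?_⟩)
  · have hne : ∀ (i : Fin #U) (j : Fin #Uᶜ), ¬ G.Reachable (ev U i) (ev Uᶜ j) := by
      intro i j hr
      have h3 := clo_reach hU hr (emb_mem U i)
      have h4 := emb_mem Uᶜ j
      rw [mem_compl] at h4
      exact h4 h3
    rintro (x | x) (y | y) h
    · induction x using SimpleGraph.ConnectedComponent.ind with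
      | _ x =>
      induction y using SimpleGraph.ConnectedComponent.ind with
      | _ y =>
        have h3 : G.Reachable (ev U x) (ev U y) := SimpleGraph.ConnectedComponent.exact h
        exact congrArg Sum.inl (SimpleGraph.ConnectedComponent.sound ((reach_gi G U hU x y).mpr h3))
    · induction x using SimpleGraph.ConnectedComponent.ind with
      | _ x =>
      induction y using SimpleGraph.ConnectedComponent.ind with
      | _ y =>
        exact absurd (SimpleGraph.ConnectedComponent.exact h) (hne x y)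
    · induction x using SimpleGraph.ConnectedComponent.ind with
      | _ x =>
      induction y using SimpleGraph.ConnectedComponent.ind with
      | _ y =>
        exact absurd (SimpleGraph.ConnectedComponent.exact h).symm (hne y x)
    · induction x using SimpleGraph.ConnectedComponent.ind with
      | _ x =>
      induction y using SimpleGraph.ConnectedComponent.ind with
      | _ y =>
        have h3 : G.Reachable (ev Uᶜ x) (ev Uᶜ y) := SimpleGraph.ConnectedComponent.exact h
        exact congrArg Sum.inr (SimpleGraph.ConnectedComponent.sound ((reach_gi G Uᶜ hC x y).mpr h3))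
  · intro c
    induction c using SimpleGraph.ConnectedComponent.ind with
    | _ x =>
      obtain ⟨z, hz⟩ := (psi_bij U).2 x
      rcases z with i | j
      · exact ⟨Sum.inl ((gi G U).connectedComponentMk i), by rw [← hz]; rfl⟩
      · exact ⟨Sum.inr ((gi G Uᶜ).connectedComponentMk j), by rw [← hz]; rfl⟩

theorem edges (hU : Clo G U) : ne G = ne (gi G U) + ne (gi G Uᶜ) := by
  classical
  rw [ne_gi, ne_gi, ne_eq_eIn]
  have h1 : ∀ Q : Finset (Fin n), eIn G Q
      = #(univ.filter fun e : Sym2 (Fin n) => e ∈ G.edgeSet ∧ ∀ v ∈ e, v ∈ Q) := by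
    intro Q
    unfold eIn
    rw [Nat.card_eq_fintype_card, Fintype.card_subtype]
  rw [h1, h1, h1, ← card_union_of_disjoint]
  · congr 1
    ext e
    simp only [mem_filter, mem_univ, true_and, mem_union, implies_true, and_true]
    induction e using Sym2.ind with
    | _ a b =>
      constructor
      · intro h2
        by_cases ha : a ∈ U
        · left
          refine ⟨h2, fun v hv => ?_⟩
          rcases Sym2.mem_iff.mp hv with rfl | rfl
          · exact ha
          · exact hU _ _ h2 ha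
        · right
          refine ⟨h2, fun v hv => ?_⟩
          rcases Sym2.mem_iff.mp hv with rfl | rfl
          · exact mem_compl.mpr ha
          · exact clo_compl G U hU _ _ h2 (mem_compl.mpr ha)
      · rintro (h | h)
        · exact h.1
        · exact h.1
  · rw [disjoint_left]
    intro e he he'
    rw [mem_filter] at he he'
    induction e using Sym2.ind with
    | _ a b =>
      exact (mem_compl.mp (he'.2.2 a (by simp))) (he.2.2 a (by simp))

end glu

theorem goalGLU : Pool.Agent.Helper26.AL.StmtGLU := by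
  classical
  intro n G U g₁ g₂ hU ⟨σ₁, hr₁, h₁⟩ ⟨σ₂, hr₂, h₂⟩
  let φ : G.Dart ≃ (gi G U).Dart ⊕ (gi G Uᶜ).Dart := (Equiv.ofBijective _ (phi_bij G U hU)).symm
  have e1 : ∀ d, φ (dgi G U d) = Sum.inl d := by
    intro d
    rw [Equiv.symm_apply_eq]; rfl
  have e2 : ∀ d, φ (dgi G Uᶜ d) = Sum.inr d := by
    intro d
    rw [Equiv.symm_apply_eq]; rfl
  have e1' : ∀ d, φ.symm (Sum.inl d) = dgi G U d := fun d => rfl
  have e2' : ∀ d, φ.symm (Sum.inr d) = dgi G Uᶜ d := fun d => rfl
  have hcase : ∀ d : G.Dart, (∃ d', d = dgi G U d') ∨ ∃ d', d = dgi G Uᶜ d' := by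
    intro d
    obtain ⟨z, hz⟩ := (phi_bij G U hU).2 d
    rcases z with z | z
    · exact Or.inl ⟨z, hz.symm⟩
    · exact Or.inr ⟨z, hz.symm⟩
  refine ⟨tr φ (Equiv.Perm.sumCongr σ₁ σ₂), ⟨?_, ?_⟩, ?_⟩
  · intro d
    rcases hcase d with ⟨d', rfl⟩ | ⟨d', rfl⟩
    · rw [tr_apply, e1]
      show (dgi G U (σ₁ d')).fst = _
      exact congrArg (ev U) (hr₁.src d')
    · rw [tr_apply, e2]
      show (dgi G Uᶜ (σ₂ d')).fst = _
      exact congrArg (ev Uᶜ) (hr₂.src d')
  · intro d e hde
    rw [sameCycle_tr]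
    rcases hcase d with ⟨d', rfl⟩ | ⟨d', rfl⟩
    · rcases hcase e with ⟨e', rfl⟩ | ⟨e', rfl⟩
      · rw [e1, e1, sameCycle_inl]
        exact hr₁.cyc d' e' ((ev U).injective hde)
      · exact absurd hde (ev_ne U _ _)
    · rcases hcase e with ⟨e', rfl⟩ | ⟨e', rfl⟩
      · exact absurd hde.symm (ev_ne U _ _)
      · rw [e2, e2, sameCycle_inr]
        exact hr₂.cyc d' e' ((ev Uᶜ).injective hde)
  · have hrev : rev G = tr φ (Equiv.Perm.sumCongr (rev (gi G U)) (rev (gi G Uᶜ))) := by
      ext1 d
      rcases hcase d with ⟨d', rfl⟩ | ⟨d', rfl⟩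
      · rw [tr_apply, e1]; rfl
      · rw [tr_apply, e2]; rfl
    have horb : orb (tr φ (Equiv.Perm.sumCongr σ₁ σ₂) * rev G)
        = orb (σ₁ * rev (gi G U)) + orb (σ₂ * rev (gi G Uᶜ)) := by
      rw [hrev, ← tr_mul, orb_tr]
      have : Equiv.Perm.sumCongr σ₁ σ₂ * Equiv.Perm.sumCongr (rev (gi G U)) (rev (gi G Uᶜ))
          = Equiv.Perm.sumCongr (σ₁ * rev (gi G U)) (σ₂ * rev (gi G Uᶜ)) := by
        exact ((Equiv.Perm.sumCongrHom _ _).map_mul (σ₁, σ₂) (rev (gi G U), rev (gi G Uᶜ))).symm
      rw [this, orb_sum]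
    unfold faces at h₁ h₂ ⊢
    rw [horb, isolated G U hU, comps G U hU, edges G U hU]
    have hv : Nat.card (Fin n) = Nat.card (Fin #U) + Nat.card (Fin #Uᶜ) := by
      simp only [Nat.card_eq_fintype_card, Fintype.card_fin]
      have := card_add_card_compl U
      rw [Fintype.card_fin] at this
      exact this.symm
    rw [hv]
    omega

end Pool.Agent.Helper45.AL
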