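import Pool.Agent.Helper26.AL.GoalsA
import Pool.Agent.Helper26.AF.Base

/-!
Project AL, packet TAI: truncation of the sum over the total excess.
-/

set_option linter.unusedSectionVars false

namespace Pool.Agent.Helper45.AL

open Finset Pool.Agent.Helper26.AF Pool.Agent.Helper26.AL

theorem abs_EE_le {V : Type} [Fintype V] [DecidableEq V] {p : ℝ} (h0 : 0 ≤ p) (h1 : p ≤ 1)
    {f h : SimpleGraph V → ℝ} (hf : ∀ G, |f G| ≤ h G) : |EE p f| ≤ EE p h := by
  rw [abs_le]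
  constructor
  · have e : -EE p h = EE p (fun G => (-1) * h G) := by rw [EE_smul]; ring
    rw [e]
    exact EE_mono h0 h1 fun G => by have := (abs_le.mp (hf G)).1; linarith
  · exact EE_mono h0 h1 fun G => (abs_le.mp (hf G)).2

theorem cxg_of_cxr {V : Type} {R : ℕ} {G : SimpleGraph V} (h : CXR R G) : CXG G :=
  fun Q hQ => (h Q hQ).1

theorem group_r (k j R : ℕ) (q : ℝ) (C c : ℝ) (N : ℕ) (P : Prop) [Decidable P] (hN : P → k ≤ N)
    (hj : j ≤ k) :
    ∑ r ∈ range (R + 1), q ^ (k + r) * C * (if P ∧ N = k + r then c else 0)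
      = C * ((if P ∧ N ≤ j + (k - j) + R then c else 0) * q ^ N) := by
  by_cases hP : P
  · have hk := hN hP
    by_cases hR : N ≤ k + R
    · rw [sum_eq_single (N - k)]
      · rw [if_pos ⟨hP, by omega⟩, if_pos ⟨hP, by omega⟩]
        have : k + (N - k) = N := by omega
        rw [this]; ring
      · intro b _ hb
        rw [if_neg (by rintro ⟨_, h⟩; omega)]; ring
      · intro h
        exact absurd (mem_range.mpr (by omega)) h
    · rw [if_neg (by rintro ⟨_, h⟩; omega), sum_eq_zero]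
      · ring
      · intro r hr
        rw [mem_range] at hr
        rw [if_neg (by rintro ⟨_, h⟩; omega)]; ring
  · rw [if_neg (fun h => hP h.1), sum_eq_zero]
    · ring
    · intro r _
      rw [if_neg (fun h => hP h.1)]; ring

theorem goalTAI (hFUN : Pool.Agent.Helper26.AL.StmtFUN) (hPW1 : Pool.Agent.Helper26.AL.StmtPW1)
    (hPW2 : Pool.Agent.Helper26.AL.StmtPW2) (hCXN : Pool.Agent.Helper26.AL.StmtCXN) :
    Pool.Agent.Helper26.AL.StmtTAI := by
  classical
  intro n R g p s hp0 hp1 hs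
  have hlow : ∀ {m : ℕ} (H : SimpleGraph (Fin m)), CXG H → m ≤ ne H := by
    intro m H h
    have := (hCXN (Fin m) H h).1
    rwa [Fintype.card_fin] at this
  have hcomp : ∀ {m : ℕ} (H : SimpleGraph (Fin m)), CXG H → ∀ Q, IsComp H Q → eIn H Q + m ≤ #Q + ne H := by
    intro m H h Q hQ
    have := (hCXN (Fin m) H h).2.2 Q hQ
    rwa [Fintype.card_fin] at this
  let w : ∀ j i : ℕ, SimpleGraph (Fin j) → SimpleGraph (Fin i) → ℝ := fun j i H₁ H₂ =>
    if (CXG H₁ ∧ Embeds H₁ g ∧ CXG H₂) ∧ ne H₁ + ne H₂ ≤ j + i + R then (-1 : ℝ) ^ cc H₂ else 0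
  have hB := hFUN n w p hp0 hp1
  have hT : (∑ k ∈ range (n + 1), (n.choose k : ℝ) * (1 - p) ^ MM n k *
        ∑ j ∈ range (k + 1), (k.choose j : ℝ) * ∑ H₁ : SimpleGraph (Fin j),
          ∑ H₂ : SimpleGraph (Fin (k - j)), w j (k - j) H₁ H₂ * (p / (1 - p)) ^ (ne H₁ + ne H₂))
      = ∑ r ∈ range (R + 1), TN n p g r := by
    unfold TN
    rw [sum_comm]
    refine sum_congr rfl fun k _ => ?_
    rw [← mul_sum]
    congr 1
    unfold mg
    simp only [mul_sum]
    rw [sum_comm]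
    refine sum_congr rfl fun j hj => ?_
    have hjk : j ≤ k := by rw [mem_range] at hj; omega
    symm
    rw [sum_comm]
    refine sum_congr rfl fun H₁ _ => ?_
    rw [sum_comm]
    refine sum_congr rfl fun H₂ _ => ?_
    have hg := group_r k j R (p / (1 - p)) (k.choose j : ℝ) ((-1 : ℝ) ^ cc H₂) (ne H₁ + ne H₂)
      (CXG H₁ ∧ Embeds H₁ g ∧ CXG H₂) (fun h => by
        have h1 := hlow H₁ h.1
        have h2 := hlow H₂ h.2.2
        omega) hjk
    rw [← hg]
    refine sum_congr rfl fun r _ => ?_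
    rw [mul_assoc]
    congr 2
    by_cases hP : CXG H₁ ∧ Embeds H₁ g ∧ CXG H₂
    · by_cases hN : ne H₁ + ne H₂ = k + r
      · rw [if_pos ⟨hP.1, hP.2.1, hP.2.2, hN⟩, if_pos ⟨hP, hN⟩]
      · rw [if_neg (fun h => hN h.2.2.2), if_neg (fun h => hN h.2)]
    · rw [if_neg (fun h => hP ⟨h.1, h.2.1, h.2.2.1⟩), if_neg (fun h => hP h.1)]
  have hPr : Pr p (fun G : SimpleGraph (Fin n) => Embeds (gi G ((cxs R G).sup id)) g)
      = EE p (fun G : SimpleGraph (Fin n) => ∑ U₁ : Finset (Fin n), ∑ U₂ : Finset (Fin n),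
        if Disjoint U₁ U₂ ∧ (Clo G U₁ ∧ Clo G U₂) ∧ CXR R (gi G U₁) ∧ Embeds (gi G U₁) g ∧
          CXR R (gi G U₂) then (-1 : ℝ) ^ cc (gi G U₂) else 0) := by
    unfold Pr
    congr 1
    funext G
    have := hPW1 n R g G
    refine Eq.trans ?_ (Eq.trans this.symm ?_)
    · congr
    · congr
  rw [hPr, ← hT, ← hB, ← EE_sub, ← EE_smul]
  refine abs_EE_le hp0.le hp1.le fun G => ?_
  rw [← hPW2 n R s G, ← sum_sub_distrib, mul_sum]
  refine (abs_sum_le_sum_abs _ _).trans (sum_le_sum fun U₁ _ => ?_)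
  rw [← sum_sub_distrib, mul_sum]
  refine (abs_sum_le_sum_abs _ _).trans (sum_le_sum fun U₂ _ => ?_)
  have hs0 : 0 < s ^ R := by positivity
  have key : ∀ (x y z x' y' z' : ℝ), x = x' → y = y' → z = z' → |x' - y'| ≤ 1 / s ^ R * z' →
      |x - y| ≤ 1 / s ^ R * z := by
    rintro x y z x' y' z' rfl rfl rfl h; exact h
  by_cases hD : Disjoint U₁ U₂ ∧ (Clo G U₁ ∧ Clo G U₂)
  · by_cases hC : CXR R (gi G U₁) ∧ CXR R (gi G U₂)
    · have hg1 := cxg_of_cxr hC.1
      have hg2 := cxg_of_cxr hC.2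
      have hl1 := hlow _ hg1
      have hl2 := hlow _ hg2
      by_cases hE : Embeds (gi G U₁) g
      · by_cases hR : ne (gi G U₁) + ne (gi G U₂) ≤ #U₁ + #U₂ + R
        · have hw : w #U₁ #U₂ (gi G U₁) (gi G U₂) = (-1 : ℝ) ^ cc (gi G U₂) :=
            if_pos ⟨⟨hg1, hE, hg2⟩, hR⟩
          have : |(-1 : ℝ) ^ cc (gi G U₂) - (-1 : ℝ) ^ cc (gi G U₂)|
              ≤ 1 / s ^ R * s ^ ((ne (gi G U₁) - #U₁) + (ne (gi G U₂) - #U₂)) := by
            rw [sub_self, abs_zero]; positivity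
          exact key _ _ _ _ _ _ (if_pos ⟨hD.1, hD.2, hC.1, hE, hC.2⟩) ((if_pos hD).trans hw)
            (if_pos ⟨hD.1, hD.2, hC.1, hC.2⟩) this
        · have hw : w #U₁ #U₂ (gi G U₁) (gi G U₂) = 0 := if_neg (fun h => hR h.2)
          have : |(-1 : ℝ) ^ cc (gi G U₂) - 0|
              ≤ 1 / s ^ R * s ^ ((ne (gi G U₁) - #U₁) + (ne (gi G U₂) - #U₂)) := by
            rw [sub_zero, abs_pow, abs_neg, abs_one, one_pow, one_div, ← div_eq_inv_mul,
              le_div_iff₀ hs0, one_mul]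
            exact pow_le_pow_right₀ hs (by omega)
          exact key _ _ _ _ _ _ (if_pos ⟨hD.1, hD.2, hC.1, hE, hC.2⟩) ((if_pos hD).trans hw)
            (if_pos ⟨hD.1, hD.2, hC.1, hC.2⟩) this
      · have hw : w #U₁ #U₂ (gi G U₁) (gi G U₂) = 0 := if_neg (fun h => hE h.1.2.1)
        have : |(0 : ℝ) - 0| ≤ 1 / s ^ R * s ^ ((ne (gi G U₁) - #U₁) + (ne (gi G U₂) - #U₂)) := by
          rw [sub_self, abs_zero]; positivity
        exact key _ _ _ _ _ _ (if_neg (fun h => hE h.2.2.2.1)) ((if_pos hD).trans hw)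
          (if_pos ⟨hD.1, hD.2, hC.1, hC.2⟩) this
    · have hw : w #U₁ #U₂ (gi G U₁) (gi G U₂) = 0 := by
        refine if_neg ?_
        rintro ⟨⟨hg1, hE, hg2⟩, hR⟩
        have hl1 := hlow _ hg1
        have hl2 := hlow _ hg2
        apply hC
        constructor
        · intro Q hQ
          refine ⟨hg1 Q hQ, ?_⟩
          have := hcomp _ hg1 Q hQ
          omega
        · intro Q hQ
          refine ⟨hg2 Q hQ, ?_⟩
          have := hcomp _ hg2 Q hQ
          omega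
      have : |(0 : ℝ) - 0| ≤ 1 / s ^ R * 0 := by
        rw [sub_self, abs_zero]; simp
      exact key _ _ _ _ _ _ (if_neg (fun h => hC ⟨h.2.2.1, h.2.2.2.2⟩)) ((if_pos hD).trans hw)
        (if_neg (fun h => hC h.2.2)) this
  · have : |(0 : ℝ) - 0| ≤ 1 / s ^ R * 0 := by
      rw [sub_self, abs_zero]; simp
    exact key _ _ _ _ _ _ (if_neg (fun h => hD ⟨h.1, h.2.1⟩)) (if_neg hD)
      (if_neg (fun h => hD ⟨h.1, h.2.1⟩)) this

end Pool.Agent.Helper45.AL
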